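import Mathlib
import Pool.Graph.R_seed8.H378R2.M1

/-! Sums of the von Mangoldt function twisted by characters of conductor up to `exp l`, with at most one
exceptional conductor for each `l`. -/

set_option autoImplicit false

open Filter Topology

namespace Pool.Agent.H527.AP

open DirichletCharacter Pool.Agent.H378R2 Pool.Agent.H378R2.M1

theorem psiPhi_small (Z : ℕ) : ∃ K l0 : ℝ, 1 ≤ K ∧ 4 ≤ l0 ∧ ∀ l : ℝ, l0 ≤ l →
    ∃ fs : ℕ, (fs = 0 ∨ Z < fs) ∧ ∀ X : ℝ, 0 < X → l ^ 20 ≤ Real.log X →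
      ∀ f : ℕ, 1 < f → Real.log f ≤ l → f ≠ fs → ∀ χ : DirichletCharacter ℂ f, χ.IsPrimitive →
        ‖psiPhi χ X‖ ≤ K * (X * (Real.log X) ^ 2 * Real.exp (-l)) := by
  obtain ⟨d, hd0, hd2, hnzr⟩ := nzr_exc
  obtain ⟨l0, hl0⟩ := hnzr Z
  obtain ⟨C, hC1, hC⟩ := vM_sum_bound
  refine ⟨16 * (1 / d + 16 * (1 / d) + 4 * C), max (max l0 4) (1 / d), ?_, ?_, ?_⟩
  · have : 0 < 1 / d := by positivity
    linarith
  · exact (le_max_right _ _).trans (le_max_left _ _)
  intro l hl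
  have hl4 : 4 ≤ l := ((le_max_right _ _).trans (le_max_left _ _)).trans hl
  have hll0 : l0 ≤ l := ((le_max_left _ _).trans (le_max_left _ _)).trans hl
  have hld : 1 / d ≤ l := (le_max_right _ _).trans hl
  have hl0' : 0 < l := by linarith
  obtain ⟨fs, hfs, hmain⟩ := hl0 l hll0
  refine ⟨fs, hfs, ?_⟩
  intro X hXpos hlX f hf1 hlogf hffs χ hχ
  have : NeZero f := ⟨by omega⟩
  have hχ1 : χ ≠ 1 := primitive_ne_one hf1 hχ
  set L := Real.log X with hL
  have hld' : 1 ≤ d * l := by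
    rw [div_le_iff₀ hd0] at hld
    linarith
  have hL1 : l ^ 18 ≤ L := (pow_le_pow_right₀ (by linarith) (by norm_num)).trans hlX
  have hl18 : 1 ≤ l ^ 18 := one_le_pow₀ (by linarith)
  have hLpos : 0 < L := by linarith
  have hL1' : 1 ≤ L := by linarith
  set δ : ℝ := d / l ^ 18 with hδ
  set M : ℝ := l ^ 18 / d with hM
  set T : ℝ := Real.exp l / 4 with hT
  have hδ0 : 0 < δ := by positivity
  have hM0 : 0 ≤ M := by positivity
  have hexp4 : 16 ≤ Real.exp l := by
    have h1 : Real.exp 4 ≤ Real.exp l := Real.exp_le_exp.2 hl4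
    have h2 : (16 : ℝ) ≤ Real.exp 4 := by
      have h3 := Real.exp_one_gt_d9
      have h4 : Real.exp 4 = Real.exp 1 ^ 4 := by
        rw [← Real.exp_nat_mul]; norm_num
      rw [h4]
      calc (16 : ℝ) = 2 ^ 4 := by norm_num
        _ ≤ Real.exp 1 ^ 4 := by gcongr; linarith
    linarith
  have hT1 : 1 ≤ T := by rw [hT]; linarith
  have hδ4 : δ ≤ 1 / 4 := by
    rw [hδ, div_le_iff₀ (by positivity)]
    have h3 : (4 : ℝ) ^ 18 ≤ l ^ 18 := by gcongr
    norm_num at h3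
    linarith
  have hδL : l ≤ δ * L := by
    have h1 : δ * l ^ 20 ≤ δ * L := mul_le_mul_of_nonneg_left hlX hδ0.le
    have h2 : δ * l ^ 20 = d * l * l := by
      rw [hδ]; field_simp
    rw [h2] at h1
    nlinarith
  set c : ℝ := 1 + 1 / L with hc
  have hc1 : 1 < c := by
    rw [hc]
    have : 0 < 1 / L := by positivity
    linarith
  have hcδ : c ≤ 1 + δ := by
    rw [hc]
    have h2 : 1 / L ≤ δ := by
      rw [div_le_iff₀ hLpos]; linarith
    linarith
  have hX1 : 1 ≤ X := by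
    by_contra hcon
    push Not at hcon
    have := Real.log_nonpos hXpos.le hcon.le
    linarith
  have hXc : X ^ c ≤ 3 * X := by
    rw [hc, Real.rpow_add hXpos, Real.rpow_one]
    have h1 : X ^ (1 / L) = Real.exp 1 := by
      rw [Real.rpow_def_of_pos hXpos, ← hL, mul_one_div_cancel hLpos.ne']
    rw [h1]
    have := Real.exp_one_lt_d9
    nlinarith
  have hA : ∑' n : ℕ, ArithmeticFunction.vonMangoldt n * (n : ℝ) ^ (-c) ≤ C * L ^ 2 := by
    refine (hC c hc1 (by linarith)).trans (le_of_eq ?_)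
    have h1 : c - 1 = 1 / L := by rw [hc]; ring
    rw [h1]
    field_simp
  have hcont := contour χ hχ1 hX1 hc1 hδ0 hδ4 hcδ hXc hT1 hM0 hA (by
    intro s h1 h2
    refine hmain f hf1 hlogf hffs χ hχ s h1 ?_
    rw [Real.log_le_iff_le_exp (by positivity)]
    rw [hT] at h2
    linarith)
  refine hcont.trans ?_
  have hXδ : X ^ (1 - δ) ≤ X * Real.exp (-l) := by
    rw [sub_eq_add_neg, Real.rpow_add hXpos, Real.rpow_one, Real.rpow_def_of_pos hXpos, ← hL]
    apply mul_le_mul_of_nonneg_left _ hXpos.le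
    apply Real.exp_le_exp.2
    linarith
  have hL2 : l ^ 18 ≤ L ^ 2 := by nlinarith
  have hMle : M ≤ (1 / d) * L ^ 2 := by
    rw [hM, div_eq_mul_inv, mul_comm, ← one_div]
    gcongr
  have hel : 0 < Real.exp (-l) := Real.exp_pos _
  have hel1 : Real.exp (-l) ≤ 1 := Real.exp_le_one_iff.2 (by linarith)
  have hTi : 1 / T = 4 * Real.exp (-l) := by
    rw [hT, Real.exp_neg]
    field_simp
  have hd' : 0 < 1 / d := by positivity
  have t1 : X ^ (1 - δ) * M ≤ (1 / d) * (X * L ^ 2 * Real.exp (-l)) := by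
    calc X ^ (1 - δ) * M ≤ (X * Real.exp (-l)) * ((1 / d) * L ^ 2) := by gcongr
      _ = _ := by ring
  have t2 : X * M / T ^ 2 ≤ 16 * (1 / d) * (X * L ^ 2 * Real.exp (-l)) := by
    have h1 : X * M / T ^ 2 = X * M * (1 / T) ^ 2 := by
      rw [div_eq_mul_inv, one_div, inv_pow]
    rw [h1, hTi]
    calc X * M * (4 * Real.exp (-l)) ^ 2 ≤ X * ((1 / d) * L ^ 2) * (4 * Real.exp (-l)) ^ 2 := by gcongr
      _ = 16 * (1 / d) * (X * L ^ 2 * Real.exp (-l)) * Real.exp (-l) := by ring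
      _ ≤ 16 * (1 / d) * (X * L ^ 2 * Real.exp (-l)) * 1 := by gcongr
      _ = _ := by ring
  have t3 : X * (C * L ^ 2) / T ≤ 4 * C * (X * L ^ 2 * Real.exp (-l)) := by
    have h1 : X * (C * L ^ 2) / T = X * (C * L ^ 2) * (1 / T) := by
      rw [div_eq_mul_inv, one_div]
    rw [h1, hTi]
    apply le_of_eq
    ring
  linarith

end Pool.Agent.H527.AP
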