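import Mathlib
import Pool.Graph.R_seed8.H398R2.BA2
import Pool.Agent.H527.AP.A1

/-! From the tent weights to the logarithmic weights. -/

set_option autoImplicit false

open Filter Topology Finset

namespace Pool.Agent.H527.AP

open Pool.Agent.H378R2 Pool.Agent.H410R2

/-- positive part of the logarithm -/
noncomputable def lp (u : ℝ) : ℝ := max 0 (Real.log u)

theorem psiLog_ext {q : ℕ} (χ : DirichletCharacter ℂ q) {x : ℝ} (hx : 0 < x) (N : ℕ) (hN : ⌊x⌋₊ ≤ N) :
    psiLog x q χ = ∑ n ∈ Icc 1 N, ((ArithmeticFunction.vonMangoldt n * lp (x / n) : ℝ) : ℂ) * χ (n : ZMod q) := by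
  unfold psiLog
  rw [← sum_subset (Icc_subset_Icc_right hN)]
  · apply sum_congr rfl
    intro n hn
    rw [mem_Icc] at hn
    have hn1 : (1 : ℝ) ≤ n := by exact_mod_cast hn.1
    have hnx : (n : ℝ) ≤ x := (Nat.le_floor_iff hx.le).mp hn.2
    have h1 : 0 ≤ Real.log (x / n) := by
      apply Real.log_nonneg
      rwa [le_div_iff₀ (by linarith), one_mul]
    unfold lp
    rw [max_eq_right h1]
    push_cast
    ring
  · intro n hn hn'
    rw [mem_Icc] at hn hn'
    have hn1 : (1 : ℝ) ≤ n := by exact_mod_cast hn.1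
    have hnx : x < n := by
      have : ⌊x⌋₊ < n := by
        by_contra h
        exact hn' ⟨hn.1, not_lt.1 h⟩
      exact (Nat.floor_lt hx.le).mp this
    have h1 : Real.log (x / n) ≤ 0 := by
      apply Real.log_nonpos (by positivity)
      rw [div_le_one (by linarith)]
      exact hnx.le
    unfold lp
    rw [max_eq_left h1]
    simp

theorem Phi_lp {x : ℝ} (hx : 0 < x) {n : ℕ} (hn : 1 ≤ n) :
    Phi (n / (x / Real.exp 1)) = lp (x / n) - 2 * lp (x * Real.exp (-(1 / 2)) / n) +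
      lp (x * Real.exp (-1) / n) := by
  have hn0 : (0 : ℝ) < n := by exact_mod_cast hn
  obtain ⟨v, hv⟩ : ∃ v : ℝ, v = Real.log n - Real.log x + 1 := ⟨_, rfl⟩
  have h0 : Real.log (n / (x / Real.exp 1)) = v := by
    rw [Real.log_div hn0.ne' (by positivity), Real.log_div hx.ne' (Real.exp_ne_zero _), Real.log_exp, hv]
    ring
  have h1 : Real.log (x / n) = 1 - v := by
    rw [Real.log_div hx.ne' hn0.ne', hv]; ring
  have h2 : Real.log (x * Real.exp (-(1 / 2)) / n) = 1 / 2 - v := by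
    rw [Real.log_div (by positivity) hn0.ne', Real.log_mul hx.ne' (Real.exp_ne_zero _), Real.log_exp, hv]
    ring
  have h3 : Real.log (x * Real.exp (-1) / n) = - v := by
    rw [Real.log_div (by positivity) hn0.ne', Real.log_mul hx.ne' (Real.exp_ne_zero _), Real.log_exp, hv]
    ring
  unfold Phi lp
  rw [h0, h1, h2, h3]
  rcases le_total v 0 with c1 | c1
  · rw [abs_of_nonpos (by linarith), max_eq_left (by linarith), max_eq_right (by linarith),
      max_eq_right (by linarith), max_eq_right (by linarith)]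
    ring
  · rcases le_total v (1 / 2) with c2 | c2
    · rw [abs_of_nonpos (by linarith), max_eq_right (by linarith), max_eq_right (by linarith),
        max_eq_right (by linarith), max_eq_left (by linarith)]
      ring
    · rcases le_total v 1 with c3 | c3
      · rw [abs_of_nonneg (by linarith), max_eq_right (by linarith), max_eq_right (by linarith),
          max_eq_left (by linarith), max_eq_left (by linarith)]
        ring
      · rw [abs_of_nonneg (by linarith), max_eq_left (by linarith), max_eq_left (by linarith),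
          max_eq_left (by linarith), max_eq_left (by linarith)]
        ring

theorem psi_rec {q : ℕ} (χ : DirichletCharacter ℂ q) {x : ℝ} (hx : 0 < x) :
    psiPhi χ (x / Real.exp 1) = psiLog x q χ - 2 * psiLog (x * Real.exp (-(1 / 2))) q χ +
      psiLog (x * Real.exp (-1)) q χ := by
  set N : ℕ := ⌊3 * (x / Real.exp 1)⌋₊ with hN
  have he := Real.exp_one_lt_d9
  have he0 := Real.exp_pos 1
  have hxN : ⌊x⌋₊ ≤ N := by
    apply Nat.floor_le_floor
    rw [← mul_div_assoc, le_div_iff₀ he0]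
    nlinarith
  have h2 : ⌊x * Real.exp (-(1 / 2))⌋₊ ≤ N := by
    refine le_trans (Nat.floor_le_floor ?_) hxN
    have : Real.exp (-(1 / 2)) ≤ 1 := Real.exp_le_one_iff.2 (by norm_num)
    nlinarith
  have h3 : ⌊x * Real.exp (-1)⌋₊ ≤ N := by
    refine le_trans (Nat.floor_le_floor ?_) hxN
    have : Real.exp (-1) ≤ 1 := Real.exp_le_one_iff.2 (by norm_num)
    nlinarith
  rw [psiLog_ext χ hx N hxN, psiLog_ext χ (by positivity) N h2, psiLog_ext χ (by positivity) N h3]
  unfold psiPhi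
  rw [← hN, mul_sum, ← sum_sub_distrib, ← sum_add_distrib]
  apply sum_congr rfl
  intro n hn
  rw [mem_Icc] at hn
  rw [Phi_lp hx hn.1]
  push_cast
  ring

theorem psi_tele {q : ℕ} (χ : DirichletCharacter ℂ q) {x : ℝ} (hx : 0 < x) (J : ℕ) :
    psiLog x q χ = ∑ j ∈ range J, ((j : ℂ) + 1) * psiPhi χ (x * Real.exp (-(j / 2)) / Real.exp 1) +
      ((J : ℂ) + 1) * psiLog (x * Real.exp (-(J / 2))) q χ -
      (J : ℂ) * psiLog (x * Real.exp (-((J + 1) / 2))) q χ := by
  induction J with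
  | zero => simp
  | succ J ih =>
    rw [ih, sum_range_succ]
    have h := psi_rec χ (x := x * Real.exp (-(J / 2))) (by positivity)
    have e1 : x * Real.exp (-(J / 2)) * Real.exp (-(1 / 2)) = x * Real.exp (-((J + 1) / 2)) := by
      rw [mul_assoc, ← Real.exp_add]; congr 2; ring
    have e2 : x * Real.exp (-(J / 2)) * Real.exp (-1) = x * Real.exp (-((J + 1 + 1) / 2)) := by
      rw [mul_assoc, ← Real.exp_add]; congr 2; ring
    rw [e1, e2] at h
    rw [h]
    push_cast
    ring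

theorem psiLog_triv {q : ℕ} (χ : DirichletCharacter ℂ q) {x L : ℝ} (hx : 0 < x) (hL : Real.log x ≤ L)
    (hL0 : 0 ≤ L) : ‖psiLog x q χ‖ ≤ x * L ^ 2 := by
  rcases lt_or_ge x 1 with h | h
  · have h1 : ⌊x⌋₊ = 0 := Nat.floor_eq_zero.2 h
    unfold psiLog
    rw [h1]
    simp
    positivity
  unfold psiLog
  refine (norm_sum_le _ _).trans ?_
  have h1 : ∀ n ∈ Icc 1 ⌊x⌋₊, ‖((ArithmeticFunction.vonMangoldt n : ℝ) : ℂ) * χ (n : ZMod q) *
      ((Real.log (x / n) : ℝ) : ℂ)‖ ≤ L ^ 2 := by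
    intro n hn
    have h2 := Pool.Agent.H398R2.BV.log_div_bounds x n h hn
    have h3 := χ.norm_le_one (n : ZMod q)
    have h4 : 0 ≤ ArithmeticFunction.vonMangoldt n := ArithmeticFunction.vonMangoldt_nonneg
    rw [mem_Icc] at hn
    have hn1 : (1 : ℝ) ≤ n := by exact_mod_cast hn.1
    have hnx : (n : ℝ) ≤ x := (Nat.le_floor_iff hx.le).mp hn.2
    have h5 : ArithmeticFunction.vonMangoldt n ≤ L :=
      (ArithmeticFunction.vonMangoldt_le_log).trans ((Real.log_le_log (by linarith) hnx).trans hL)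
    rw [norm_mul, norm_mul, Complex.norm_real, Complex.norm_real, Real.norm_eq_abs,
      Real.norm_eq_abs, abs_of_nonneg h4, abs_of_nonneg h2.1]
    calc ArithmeticFunction.vonMangoldt n * ‖χ (n : ZMod q)‖ * Real.log (x / n) ≤ L * 1 * L := by
          apply mul_le_mul _ (h2.2.trans hL) h2.1 (by linarith)
          exact mul_le_mul h5 h3 (norm_nonneg _) hL0
      _ = L ^ 2 := by ring
  refine (sum_le_sum h1).trans ?_
  rw [sum_const, nsmul_eq_mul, Nat.card_Icc, Nat.add_sub_cancel]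
  apply mul_le_mul_of_nonneg_right _ (by positivity)
  exact Nat.floor_le hx.le

/-- characters with the logarithmic weight -/
theorem psiLog_small (Z : ℕ) : ∃ K l0 : ℝ, 1 ≤ K ∧ 4 ≤ l0 ∧ ∀ l : ℝ, l0 ≤ l →
    ∃ fs : ℕ, (fs = 0 ∨ Z < fs) ∧ ∀ X : ℝ, 0 < X → 4 * l ^ 20 ≤ Real.log X →
      ∀ f : ℕ, 1 < f → Real.log f ≤ l → f ≠ fs → ∀ χ : DirichletCharacter ℂ f, χ.IsPrimitive →
        ‖psiLog X f χ‖ ≤ K * (X * (Real.log X) ^ 3 * Real.exp (-l)) := by
  obtain ⟨K, l0, hK, hl0, h⟩ := psiPhi_small Z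
  refine ⟨K + 6, l0, by linarith, hl0, ?_⟩
  intro l hl
  obtain ⟨fs, hfs, hmain⟩ := h l hl
  refine ⟨fs, hfs, ?_⟩
  intro X hX hlX f hf1 hlogf hffs χ hχ
  have hl4 : 4 ≤ l := hl0.trans hl
  set L := Real.log X with hL
  have hl20 : l ≤ l ^ 20 := le_self_pow₀ (by linarith) (by norm_num)
  have hL16 : 16 ≤ L := by linarith
  have hel : 0 < Real.exp (-l) := Real.exp_pos _
  set J : ℕ := ⌊L⌋₊ with hJ
  have hJL : (J : ℝ) ≤ L := Nat.floor_le (by linarith)
  have hLJ : L < J + 1 := Nat.lt_floor_add_one _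
  rw [psi_tele χ hX J]
  have hXL : X = Real.exp L := (Real.exp_log hX).symm
  -- main sum
  have t1 : ‖∑ j ∈ range J, ((j : ℂ) + 1) * psiPhi χ (X * Real.exp (-(j / 2)) / Real.exp 1)‖ ≤
      K * (X * L ^ 3 * Real.exp (-l)) := by
    refine (norm_sum_le _ _).trans ?_
    have h1 : ∀ j ∈ range J, ‖((j : ℂ) + 1) * psiPhi χ (X * Real.exp (-(j / 2)) / Real.exp 1)‖ ≤
        K * (X * L ^ 2 * Real.exp (-l)) := by
      intro j hj
      rw [mem_range] at hj
      have hj0 : (0 : ℝ) ≤ j := Nat.cast_nonneg _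
      have hj1 : (j : ℝ) + 1 ≤ J := by exact_mod_cast hj
      obtain ⟨x', hx'⟩ : ∃ x' : ℝ, x' = X * Real.exp (-(j / 2)) / Real.exp 1 := ⟨_, rfl⟩
      have hx'0 : 0 < x' := by rw [hx']; positivity
      have hlog : Real.log x' = L - j / 2 - 1 := by
        rw [hx', Real.log_div (by positivity) (Real.exp_ne_zero _), Real.log_mul hX.ne' (Real.exp_ne_zero _),
          Real.log_exp, Real.log_exp, ← hL]
        ring
      have hlx' : l ^ 20 ≤ Real.log x' := by rw [hlog]; linarith
      have hb := hmain x' hx'0 hlx' f hf1 hlogf hffs χ hχ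
      rw [← hx', norm_mul]
      have hn : ‖(j : ℂ) + 1‖ = (j : ℝ) + 1 := by
        have : ((j : ℂ) + 1) = (((j : ℝ) + 1 : ℝ) : ℂ) := by push_cast; ring
        rw [this, Complex.norm_real, Real.norm_of_nonneg (by linarith)]
      rw [hn]
      have hlx0 : 0 ≤ Real.log x' := le_trans (by positivity) hlx'
      have hlxL : Real.log x' ≤ L := by rw [hlog]; linarith
      have hfac : ((j : ℝ) + 1) * x' ≤ X := by
        have e1 : x' = X * Real.exp (-(j / 2 + 1)) := by
          rw [hx', mul_div_assoc, ← Real.exp_sub]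
          congr 2
          ring
        rw [e1]
        have e2 : (j : ℝ) + 1 ≤ Real.exp (j / 2 + 1) := by
          rw [Real.exp_add]
          have h3 := Real.add_one_le_exp ((j : ℝ) / 2)
          have h4 := Real.exp_one_gt_d9
          have h5 : (j : ℝ) / 2 + 1 ≤ Real.exp (j / 2) := h3
          nlinarith
        have e3 : Real.exp (j / 2 + 1) * Real.exp (-(j / 2 + 1)) = 1 := by
          rw [← Real.exp_add]; simp
        calc ((j : ℝ) + 1) * (X * Real.exp (-(j / 2 + 1))) ≤
            Real.exp (j / 2 + 1) * (X * Real.exp (-(j / 2 + 1))) := by gcongr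
          _ = X * (Real.exp (j / 2 + 1) * Real.exp (-(j / 2 + 1))) := by ring
          _ = X := by rw [e3, mul_one]
      calc ((j : ℝ) + 1) * ‖psiPhi χ x'‖ ≤ ((j : ℝ) + 1) * (K * (x' * (Real.log x') ^ 2 * Real.exp (-l))) := by
            gcongr
        _ = K * ((((j : ℝ) + 1) * x') * (Real.log x') ^ 2 * Real.exp (-l)) := by ring
        _ ≤ K * (X * L ^ 2 * Real.exp (-l)) := by gcongr
    refine (sum_le_sum h1).trans ?_
    rw [sum_const, nsmul_eq_mul, card_range]
    calc (J : ℝ) * (K * (X * L ^ 2 * Real.exp (-l))) ≤ L * (K * (X * L ^ 2 * Real.exp (-l))) := by gcongr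
      _ = _ := by ring
  -- the tails
  have hsqrt : Real.exp (L / 2) ≤ X * Real.exp (-l) := by
    rw [hXL, ← Real.exp_add]
    apply Real.exp_le_exp.2
    linarith
  have hs : X * Real.exp (-((J : ℝ) / 2)) ≤ 2 * (X * Real.exp (-l)) := by
    have h1 : X * Real.exp (-((J : ℝ) / 2)) ≤ Real.exp (1 / 2) * Real.exp (L / 2) := by
      rw [hXL, ← Real.exp_add, ← Real.exp_add]
      apply Real.exp_le_exp.2
      linarith
    have h2 : Real.exp (1 / 2) ≤ 2 := by
      have h3 : Real.exp (1 / 2) ^ 2 = Real.exp 1 := by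
        rw [← Real.exp_nat_mul]; norm_num
      have h4 := Real.exp_one_lt_d9
      have h5 := Real.exp_pos (1 / 2)
      nlinarith
    calc X * Real.exp (-((J : ℝ) / 2)) ≤ Real.exp (1 / 2) * Real.exp (L / 2) := h1
      _ ≤ 2 * (X * Real.exp (-l)) := by gcongr
  have hs' : X * Real.exp (-(((J : ℝ) + 1) / 2)) ≤ 2 * (X * Real.exp (-l)) := by
    refine le_trans ?_ hs
    gcongr
    linarith
  have hJ0 : (0 : ℝ) ≤ J := Nat.cast_nonneg _
  have t2 : ‖((J : ℂ) + 1) * psiLog (X * Real.exp (-((J : ℝ) / 2))) f χ‖ ≤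
      (L + 1) * ((2 * (X * Real.exp (-l))) * L ^ 2) := by
    rw [norm_mul]
    have hn : ‖(J : ℂ) + 1‖ = (J : ℝ) + 1 := by
      have : ((J : ℂ) + 1) = (((J : ℝ) + 1 : ℝ) : ℂ) := by push_cast; ring
      rw [this, Complex.norm_real, Real.norm_of_nonneg (by linarith)]
    rw [hn]
    have h1 := psiLog_triv χ (x := X * Real.exp (-((J : ℝ) / 2))) (L := L) (by positivity) (by
      rw [Real.log_mul hX.ne' (Real.exp_ne_zero _), Real.log_exp, ← hL]
      linarith) (by linarith)
    calc ((J : ℝ) + 1) * ‖psiLog (X * Real.exp (-((J : ℝ) / 2))) f χ‖ ≤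
        (L + 1) * (X * Real.exp (-((J : ℝ) / 2)) * L ^ 2) := by gcongr
      _ ≤ _ := by gcongr
  have t3 : ‖(J : ℂ) * psiLog (X * Real.exp (-(((J : ℝ) + 1) / 2))) f χ‖ ≤
      L * ((2 * (X * Real.exp (-l))) * L ^ 2) := by
    rw [norm_mul, Complex.norm_natCast]
    have h1 := psiLog_triv χ (x := X * Real.exp (-(((J : ℝ) + 1) / 2))) (L := L) (by positivity) (by
      rw [Real.log_mul hX.ne' (Real.exp_ne_zero _), Real.log_exp, ← hL]
      linarith) (by linarith)
    calc (J : ℝ) * ‖psiLog (X * Real.exp (-(((J : ℝ) + 1) / 2))) f χ‖ ≤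
        L * (X * Real.exp (-(((J : ℝ) + 1) / 2)) * L ^ 2) := by gcongr
      _ ≤ _ := by gcongr
  refine (norm_sub_le _ _).trans ((add_le_add (norm_add_le _ _) le_rfl).trans ?_)
  have hXe : 0 < X * Real.exp (-l) := by positivity
  have h5 : (L + 1) * ((2 * (X * Real.exp (-l))) * L ^ 2) + L * ((2 * (X * Real.exp (-l))) * L ^ 2) ≤
      6 * (X * L ^ 3 * Real.exp (-l)) := by
    have : (L + 1) * ((2 * (X * Real.exp (-l))) * L ^ 2) + L * ((2 * (X * Real.exp (-l))) * L ^ 2) =
        (4 * L + 2) * (X * Real.exp (-l) * L ^ 2) := by ring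
    rw [this]
    calc (4 * L + 2) * (X * Real.exp (-l) * L ^ 2) ≤ (6 * L) * (X * Real.exp (-l) * L ^ 2) := by
          gcongr; linarith
      _ = _ := by ring
  linarith

end Pool.Agent.H527.AP
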