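import Mathlib
import Pool.Graph.R_pool_sql_team_seeded_3997aac3.Q129.EW.PntErr
import Pool.Agent.H527.AP.A2

/-! Primes in arithmetic progressions: moduli up to `exp l`, which are not multiples of one exceptional
number. -/

set_option autoImplicit false

open Filter Topology Finset

namespace Pool.Agent.H527.AP

open Pool.Agent.H378R2 Pool.Agent.H410R2

/-- `ψ(X; m, a)` -/
noncomputable def psiA (X : ℝ) (m a : ℕ) : ℝ :=
  ∑ n ∈ (Icc 1 ⌊X⌋₊).filter (fun n => n ≡ a [MOD m]), ArithmeticFunction.vonMangoldt n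

theorem card_prim_le (f : ℕ) (hf : 1 ≤ f) :
    ((Pool.Agent.H398R2.BV.Prim f).card : ℝ) ≤ (Nat.totient f : ℝ) := by
  classical
  have : NeZero f := ⟨by omega⟩
  have h4 := DirichletCharacter.card_eq_totient_of_hasEnoughRootsOfUnity ℂ f
  rw [← h4, Nat.card_eq_fintype_card]
  unfold Pool.Agent.H398R2.BV.Prim
  exact_mod_cast (card_filter_le _ _)

/-- progressions with the logarithmic weight -/
theorem psiLogAP_small (Z : ℕ) : ∃ K l0 : ℝ, 1 ≤ K ∧ 4 ≤ l0 ∧ ∀ l : ℝ, l0 ≤ l →
    ∃ fs : ℕ, (fs = 0 ∨ Z < fs) ∧ ∀ X : ℝ, 0 < X → 4 * l ^ 20 ≤ Real.log X →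
      ∀ m : ℕ, 1 ≤ m → Real.log m ≤ l → (fs = 0 ∨ ¬ fs ∣ m) → ∀ a : ℕ, a.Coprime m →
        |psiLogAP X m a - psiLog1 X / (Nat.totient m : ℝ)| ≤
          K * (m * (X * (Real.log X) ^ 3 * Real.exp (-l))) := by
  classical
  obtain ⟨K, l0, hK, hl0, h⟩ := psiLog_small Z
  refine ⟨K + 2, l0, by linarith, hl0, ?_⟩
  intro l hl
  obtain ⟨fs, hfs, hmain⟩ := h l hl
  refine ⟨fs, hfs, ?_⟩
  intro X hX hlX m hm hlm hfm a ha
  have hl4 : 4 ≤ l := hl0.trans hl
  set L := Real.log X with hL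
  have hl20 : l ≤ l ^ 20 := le_self_pow₀ (by linarith) (by norm_num)
  have hL16 : 16 ≤ L := by linarith
  have hX1 : 1 ≤ X := by
    by_contra hcon
    push Not at hcon
    have := Real.log_nonpos hX.le hcon.le
    linarith
  have hel : 0 < Real.exp (-l) := Real.exp_pos _
  set E := K * (X * L ^ 3 * Real.exp (-l)) with hE
  have hE0 : 0 ≤ E := by positivity
  have h1 := Pool.Agent.H398R2.BV.disc_le X hX1 m a hm ha
  have hm1 : (1 : ℝ) ≤ m := by exact_mod_cast hm
  have hφ : (1 : ℝ) ≤ (Nat.totient m : ℝ) := by exact_mod_cast Nat.totient_pos.2 hm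
  have h2 : ∑ f ∈ m.divisors.filter (fun f => f ≠ 1), ∑ ψ ∈ Pool.Agent.H398R2.BV.Prim f, ‖psiLog X f ψ‖ ≤
      m * E := by
    have h3 : ∀ f ∈ m.divisors.filter (fun f => f ≠ 1),
        ∑ ψ ∈ Pool.Agent.H398R2.BV.Prim f, ‖psiLog X f ψ‖ ≤ (Nat.totient f : ℝ) * E := by
      intro f hf
      rw [mem_filter, Nat.mem_divisors] at hf
      have hf1 : 1 < f := by
        have := Nat.pos_of_dvd_of_pos hf.1.1 (by omega)
        omega
      have hfle : f ≤ m := Nat.le_of_dvd (by omega) hf.1.1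
      have hlogf : Real.log f ≤ l := by
        refine le_trans (Real.log_le_log ?_ ?_) hlm
        · exact_mod_cast (by omega : 0 < f)
        · exact_mod_cast hfle
      have hffs : f ≠ fs := by
        rintro rfl
        rcases hfm with h | h
        · omega
        · exact h hf.1.1
      calc ∑ ψ ∈ Pool.Agent.H398R2.BV.Prim f, ‖psiLog X f ψ‖ ≤ ∑ ψ ∈ Pool.Agent.H398R2.BV.Prim f, E := by
            apply sum_le_sum
            intro ψ hψ
            unfold Pool.Agent.H398R2.BV.Prim at hψ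
            rw [mem_filter] at hψ
            exact hmain X hX hlX f hf1 hlogf hffs ψ hψ.2
        _ = ((Pool.Agent.H398R2.BV.Prim f).card : ℝ) * E := by rw [sum_const, nsmul_eq_mul]
        _ ≤ _ := mul_le_mul_of_nonneg_right (card_prim_le f (by omega)) hE0
    calc ∑ f ∈ m.divisors.filter (fun f => f ≠ 1), ∑ ψ ∈ Pool.Agent.H398R2.BV.Prim f, ‖psiLog X f ψ‖ ≤
        ∑ f ∈ m.divisors.filter (fun f => f ≠ 1), (Nat.totient f : ℝ) * E := sum_le_sum h3
      _ ≤ ∑ f ∈ m.divisors, (Nat.totient f : ℝ) * E :=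
          sum_le_sum_of_subset_of_nonneg (filter_subset _ _) (fun f _ _ => by positivity)
      _ = m * E := by
          rw [← sum_mul]
          congr 1
          exact_mod_cast Nat.sum_totient m
  have h3 : (m.primeFactors.card : ℝ) ≤ m := by
    have h4 : m.primeFactors.card ≤ m := by
      have h5 : m.primeFactors ⊆ Icc 1 m := by
        intro p hp
        rw [mem_Icc]
        exact ⟨(Nat.prime_of_mem_primeFactors hp).pos, Nat.le_of_mem_primeFactors hp⟩
      have := card_le_card h5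
      rwa [Nat.card_Icc, Nat.add_sub_cancel] at this
    exact_mod_cast h4
  have h4 : L ^ 2 ≤ X * L ^ 3 * Real.exp (-l) := by
    have h5 : Real.exp l ≤ X := by
      rw [← Real.exp_log hX]
      apply Real.exp_le_exp.2
      linarith
    have h6 : 1 ≤ X * Real.exp (-l) := by
      calc (1 : ℝ) = Real.exp l * Real.exp (-l) := by rw [← Real.exp_add]; simp
        _ ≤ X * Real.exp (-l) := by gcongr
    calc L ^ 2 = L ^ 2 * 1 * 1 := by ring
      _ ≤ L ^ 2 * L * (X * Real.exp (-l)) := by gcongr; linarith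
      _ = _ := by ring
  refine h1.trans ?_
  have h5 : (1 / (Nat.totient m : ℝ)) * (∑ f ∈ m.divisors.filter (fun f => f ≠ 1),
      ∑ ψ ∈ Pool.Agent.H398R2.BV.Prim f, ‖psiLog X f ψ‖) ≤ m * E := by
    calc _ ≤ 1 * (m * E) := by
          apply mul_le_mul _ h2 _ zero_le_one
          · rw [div_le_one (by linarith)]; exact hφ
          · exact sum_nonneg fun f _ => sum_nonneg fun _ _ => norm_nonneg _
      _ = _ := one_mul _
  have h6 : 2 * (m.primeFactors.card * L ^ 2) ≤ 2 * (m * (X * L ^ 3 * Real.exp (-l))) := by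
    gcongr
  calc _ ≤ m * E + 2 * (m * (X * L ^ 3 * Real.exp (-l))) := add_le_add h5 h6
    _ = _ := by rw [hE]; ring

theorem psiLog1_eq (X : ℝ) : psiLog1 X = psiLogAP X 1 0 := by
  unfold psiLog1 psiLogAP
  rw [filter_true_of_mem (fun n _ => Nat.modEq_one)]

theorem psiA_one (X : ℝ) : psiA X 1 0 = Chebyshev.psi X := by
  unfold psiA Chebyshev.psi
  rw [filter_true_of_mem (fun n _ => Nat.modEq_one)]
  rfl

/-- differencing, lower bound -/
theorem diff_ge (X h : ℝ) (hX : 1 ≤ X) (hh : 0 ≤ h) (m a : ℕ) :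
    h * psiA X m a ≤ psiLogAP (X * Real.exp h) m a - psiLogAP X m a := by
  have hX0 : 0 < X := by linarith
  have he : 1 ≤ Real.exp h := Real.one_le_exp hh
  have hle : ⌊X⌋₊ ≤ ⌊X * Real.exp h⌋₊ := Nat.floor_le_floor (by nlinarith)
  have h1 : ∑ n ∈ (Icc 1 ⌊X⌋₊).filter (fun n => n ≡ a [MOD m]),
      ArithmeticFunction.vonMangoldt n * Real.log (X * Real.exp h / n) ≤ psiLogAP (X * Real.exp h) m a := by
    unfold psiLogAP
    apply sum_le_sum_of_subset_of_nonneg
    · exact filter_subset_filter _ (Icc_subset_Icc_right hle)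
    · intro n hn _
      rw [mem_filter] at hn
      have h2 := Pool.Agent.H398R2.BV.log_div_bounds (X * Real.exp h) n (by nlinarith) hn.1
      exact mul_nonneg ArithmeticFunction.vonMangoldt_nonneg h2.1
  have h2 : h * psiA X m a = ∑ n ∈ (Icc 1 ⌊X⌋₊).filter (fun n => n ≡ a [MOD m]),
      ArithmeticFunction.vonMangoldt n * Real.log (X * Real.exp h / n) - psiLogAP X m a := by
    unfold psiA psiLogAP
    rw [mul_sum, ← sum_sub_distrib]
    apply sum_congr rfl
    intro n hn
    rw [mem_filter, mem_Icc] at hn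
    have hn0 : (0 : ℝ) < n := by exact_mod_cast (by omega : 0 < n)
    rw [Real.log_div (by positivity) hn0.ne', Real.log_mul hX0.ne' (Real.exp_ne_zero _), Real.log_exp,
      Real.log_div hX0.ne' hn0.ne']
    ring
  linarith

/-- differencing, upper bound -/
theorem diff_le (X h : ℝ) (hX : 1 ≤ X) (hh : 0 ≤ h) (hXh : 1 ≤ X * Real.exp (-h)) (m a : ℕ) :
    psiLogAP X m a - psiLogAP (X * Real.exp (-h)) m a ≤ h * psiA X m a := by
  have hX0 : 0 < X := by linarith
  have he : Real.exp (-h) ≤ 1 := Real.exp_le_one_iff.2 (by linarith)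
  have hle : ⌊X * Real.exp (-h)⌋₊ ≤ ⌊X⌋₊ := Nat.floor_le_floor (by nlinarith)
  have h2 : psiLogAP (X * Real.exp (-h)) m a = ∑ n ∈ (Icc 1 ⌊X⌋₊).filter (fun n => n ≡ a [MOD m]),
      (if n ≤ ⌊X * Real.exp (-h)⌋₊ then ArithmeticFunction.vonMangoldt n * Real.log (X * Real.exp (-h) / n) else 0) := by
    unfold psiLogAP
    rw [← sum_filter]
    apply sum_congr _ (fun _ _ => rfl)
    ext n
    simp only [mem_filter, mem_Icc]
    constructor
    · rintro ⟨⟨h3, h4⟩, h5⟩
      exact ⟨⟨⟨h3, h4.trans hle⟩, h5⟩, h4⟩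
    · rintro ⟨⟨⟨h3, h4⟩, h5⟩, h6⟩
      exact ⟨⟨h3, h6⟩, h5⟩
  rw [h2]
  unfold psiA psiLogAP
  rw [mul_sum, ← sum_sub_distrib]
  apply sum_le_sum
  intro n hn
  rw [mem_filter, mem_Icc] at hn
  have hn0 : (0 : ℝ) < n := by exact_mod_cast (by omega : 0 < n)
  have hΛ : 0 ≤ ArithmeticFunction.vonMangoldt n := ArithmeticFunction.vonMangoldt_nonneg
  split_ifs with hc
  · have e1 : Real.log (X * Real.exp (-h) / n) = Real.log X + -h - Real.log n := by
      rw [Real.log_div (by positivity) hn0.ne', Real.log_mul hX0.ne' (Real.exp_ne_zero _), Real.log_exp]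
    rw [e1, Real.log_div hX0.ne' hn0.ne']
    apply le_of_eq
    ring
  · rw [sub_zero, mul_comm h]
    apply mul_le_mul_of_nonneg_left _ hΛ
    have h3 : X * Real.exp (-h) < n := by
      rw [not_le] at hc
      exact (Nat.floor_lt (by positivity)).1 hc
    have h4 := Real.log_le_log (by positivity) h3.le
    rw [Real.log_mul hX0.ne' (Real.exp_ne_zero _), Real.log_exp] at h4
    rw [Real.log_div hX0.ne' hn0.ne']
    linarith

end Pool.Agent.H527.AP
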