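import Mathlib
import Pool.Agent.H527.AP.A3

/-! Primes in arithmetic progressions: moduli up to `exp (l / 8)`, which are not multiples of one exceptional
number, with sharp cut-offs. -/

set_option autoImplicit false

open Filter Topology Finset

namespace Pool.Agent.H527.AP

open Pool.Agent.H378R2 Pool.Agent.H410R2

theorem pnt_real : ∃ C l0 : ℝ, 1 ≤ C ∧ 4 ≤ l0 ∧ ∀ l : ℝ, l0 ≤ l → ∀ y : ℝ, 0 < y → 4 * l ^ 20 ≤ Real.log y →
    |Chebyshev.psi y - y| ≤ C * (y * Real.exp (-l)) := by
  obtain ⟨C, c, hC, hc, hc4, h⟩ := Pool.Agent.Q129.EW.PE.psi_err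
  refine ⟨C + 1, max 4 (1 / c), by linarith, le_max_left _ _, ?_⟩
  intro l hl y hy hly
  have hl4 : 4 ≤ l := (le_max_left _ _).trans hl
  have hlc : 1 / c ≤ l := (le_max_right _ _).trans hl
  have hl20 : l ≤ l ^ 20 := le_self_pow₀ (by linarith) (by norm_num)
  have hy1 : Real.exp l ≤ y := by
    rw [← Real.exp_log hy]
    apply Real.exp_le_exp.2
    linarith
  have hy2 : 2 ≤ y := by
    have := Real.add_one_le_exp l
    linarith
  set N : ℕ := ⌊y⌋₊ with hN
  have hNy : (N : ℝ) ≤ y := Nat.floor_le hy.le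
  have hyN : y < N + 1 := Nat.lt_floor_add_one _
  have hN1 : 1 ≤ N := by
    have : 2 ≤ N := Nat.le_floor (by exact_mod_cast hy2)
    omega
  have hN0 : (0 : ℝ) < N := by exact_mod_cast hN1
  have hpsi : Chebyshev.psi y = Chebyshev.psi (N : ℝ) := by
    unfold Chebyshev.psi
    rw [Nat.floor_natCast]
  have h1 := h N hN1
  have hlogN : l ^ 20 ≤ Real.log N := by
    have h2 : y ≤ 2 * N := by linarith
    have h3 := Real.log_le_log hy h2
    rw [Real.log_mul (by norm_num) hN0.ne'] at h3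
    have h4 := Real.log_two_lt_d9
    have h5 : 1 ≤ l ^ 20 := one_le_pow₀ (by linarith)
    linarith
  have hsq : l ^ 2 ≤ Real.sqrt (Real.log N) := by
    apply Real.le_sqrt_of_sq_le
    calc (l ^ 2) ^ 2 = l ^ 4 := by ring
      _ ≤ l ^ 20 := pow_le_pow_right₀ (by linarith) (by norm_num)
      _ ≤ _ := hlogN
  have hcl : l ≤ c * Real.sqrt (Real.log N) := by
    have h2 : 1 ≤ c * l := by
      rw [div_le_iff₀ hc] at hlc
      linarith
    calc l = 1 * l := by ring
      _ ≤ (c * l) * l := by gcongr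
      _ = c * l ^ 2 := by ring
      _ ≤ _ := by gcongr
  have h2 : C * (N * Real.exp (-(c * Real.sqrt (Real.log N)))) ≤ C * (y * Real.exp (-l)) := by
    gcongr
  have h3 : 1 ≤ y * Real.exp (-l) := by
    calc (1 : ℝ) = Real.exp l * Real.exp (-l) := by rw [← Real.exp_add]; simp
      _ ≤ y * Real.exp (-l) := by gcongr
  rw [hpsi]
  have h4 := abs_le.1 (h1.trans h2)
  rw [abs_le]
  constructor <;> linarith

set_option maxHeartbeats 4000000 in
/-- the prime number theorem for progressions with a modulus up to `exp (l / 8)` -/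
theorem pap (Z : ℕ) : ∃ l0 : ℝ, 4 ≤ l0 ∧ ∀ l : ℝ, l0 ≤ l → ∃ fs : ℕ, (fs = 0 ∨ Z < fs) ∧
    ∀ X : ℝ, 0 < X → 8 * l ^ 20 ≤ Real.log X → Real.log X ≤ Real.exp (l / 48) →
      ∀ m : ℕ, 1 ≤ m → Real.log m ≤ l / 8 → (fs = 0 ∨ ¬ fs ∣ m) → ∀ a : ℕ, a.Coprime m →
        |psiA X m a - X / (Nat.totient m : ℝ)| ≤ X * Real.exp (-(l / 4)) := by
  obtain ⟨K, l1, hK, hl1, hAP⟩ := psiLogAP_small Z
  obtain ⟨C, l2, hC, hl2, hpnt⟩ := pnt_real
  obtain ⟨K2, hK2⟩ : ∃ K2 : ℝ, K2 = 25 * K + 8 * C := ⟨_, rfl⟩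
  refine ⟨max (max l1 l2) (16 * Real.log K2), ?_, ?_⟩
  · exact hl1.trans ((le_max_left _ _).trans (le_max_left _ _))
  intro l hl
  have hll1 : l1 ≤ l := ((le_max_left _ _).trans (le_max_left _ _)).trans hl
  have hll2 : l2 ≤ l := ((le_max_right _ _).trans (le_max_left _ _)).trans hl
  have hlK : 16 * Real.log K2 ≤ l := (le_max_right _ _).trans hl
  obtain ⟨fs, hfs, hmain⟩ := hAP l hll1
  refine ⟨fs, hfs, ?_⟩
  intro X hX hlX hXl m hm hlm hfm a ha
  have hl4 : 4 ≤ l := hl1.trans hll1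
  set L := Real.log X with hL
  have hl20 : l ≤ l ^ 20 := le_self_pow₀ (by linarith) (by norm_num)
  have hL32 : 32 ≤ L := by linarith
  have hX1 : 1 ≤ X := by
    by_contra hcon
    push Not at hcon
    have := Real.log_nonpos hX.le hcon.le
    linarith
  have hm1 : (1 : ℝ) ≤ m := by exact_mod_cast hm
  have hφ : (1 : ℝ) ≤ (Nat.totient m : ℝ) := by exact_mod_cast Nat.totient_pos.2 hm
  have hφ0 : (0 : ℝ) < (Nat.totient m : ℝ) := by linarith
  set h : ℝ := Real.exp (-(l / 2)) with hh
  have hh0 : 0 < h := Real.exp_pos _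
  have hh1 : h ≤ 1 := Real.exp_le_one_iff.2 (by linarith)
  have hl_8 : l ≤ l / 8 * 8 := by linarith
  have hlml : Real.log m ≤ l := by linarith
  have heh : Real.exp h ≤ 1 + 2 * h := by
    have h1 := Real.abs_exp_sub_one_sub_id_le (x := h) (by rw [abs_of_pos hh0]; exact hh1)
    have h2 := (abs_le.1 h1).2
    nlinarith
  have heh3 : Real.exp h ≤ 3 := by linarith
  have hemh : 1 - h ≤ Real.exp (-h) := by
    have := Real.add_one_le_exp (-h)
    linarith
  have hemh1 : Real.exp (-h) ≤ 1 := Real.exp_le_one_iff.2 (by linarith)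
  -- the points
  set X1 := X * Real.exp h with hX1def
  set X2 := X * Real.exp (-h) with hX2def
  have hX10 : 0 < X1 := by positivity
  have hX20 : 0 < X2 := by positivity
  have hlX1 : Real.log X1 = L + h := by
    rw [hX1def, Real.log_mul hX.ne' (Real.exp_ne_zero _), Real.log_exp]
  have hlX2 : Real.log X2 = L - h := by
    rw [hX2def, Real.log_mul hX.ne' (Real.exp_ne_zero _), Real.log_exp]; ring
  have hX2X1 : 1 ≤ X2 := by
    by_contra hcon
    push Not at hcon
    have := Real.log_nonpos hX20.le hcon.le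
    linarith
  have hel : Real.exp (-l) = h * h := by
    rw [hh, ← Real.exp_add]; congr 1; ring
  -- errors
  set Err := m * (X * L ^ 3 * (h * h)) with hErr
  have hErr0 : 0 ≤ Err := by positivity
  have e0 := hmain X hX (by linarith) m hm hlml hfm a ha
  have e1 := hmain X1 hX10 (by rw [hlX1]; linarith) m hm hlml hfm a ha
  have e2 := hmain X2 hX20 (by rw [hlX2]; linarith) m hm hlml hfm a ha
  rw [hel] at e0 e1 e2
  have e1' : K * (m * (X1 * (Real.log X1) ^ 3 * (h * h))) ≤ 24 * K * Err := by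
    rw [hlX1, hX1def, hErr]
    have h1 : (L + h) ^ 3 ≤ (2 * L) ^ 3 := by
      gcongr; linarith
    calc K * (m * (X * Real.exp h * (L + h) ^ 3 * (h * h))) ≤
        K * (m * (X * 3 * (2 * L) ^ 3 * (h * h))) := by gcongr
      _ = 24 * K * (m * (X * L ^ 3 * (h * h))) := by ring
  have e2' : K * (m * (X2 * (Real.log X2) ^ 3 * (h * h))) ≤ K * Err := by
    rw [hlX2, hX2def, hErr]
    have h1 : (L - h) ^ 3 ≤ L ^ 3 := by
      have : 0 ≤ L - h := by linarith
      gcongr; linarith
    calc K * (m * (X * Real.exp (-h) * (L - h) ^ 3 * (h * h))) ≤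
        K * (m * (X * 1 * L ^ 3 * (h * h))) := by
          have : 0 ≤ L - h := by linarith
          gcongr
      _ = K * (m * (X * L ^ 3 * (h * h))) := by ring
  have f0 := abs_le.1 e0
  have f1 := abs_le.1 (e1.trans e1')
  have f2 := abs_le.1 (e2.trans e2')
  have e0' : K * (m * (X * L ^ 3 * (h * h))) = K * Err := rfl
  rw [← hL, e0'] at f0
  -- the prime number theorem
  have p1 := abs_le.1 (hpnt l hll2 X1 hX10 (by rw [hlX1]; linarith))
  have p2 := abs_le.1 (hpnt l hll2 X2 hX20 (by rw [hlX2]; linarith))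
  rw [hel] at p1 p2
  -- upper bound
  have hEh : ∃ E1 : ℝ, E1 = m * (X * L ^ 3 * h) := ⟨_, rfl⟩
  obtain ⟨E1, hE1⟩ := hEh
  have hErrE1 : Err = h * E1 := by rw [hErr, hE1]; ring
  have hXhE1 : X * h ≤ E1 := by
    rw [hE1]
    have h1 : 1 ≤ L ^ 3 := one_le_pow₀ (by linarith)
    calc X * h = 1 * (X * 1 * h) := by ring
      _ ≤ m * (X * L ^ 3 * h) := by gcongr
  have hhh : h * h ≤ h := by nlinarith
  have up : psiA X m a ≤ X / (Nat.totient m : ℝ) + K2 * E1 := by
    have g1 := diff_ge X h hX1 hh0.le m a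
    have g2 := diff_le X1 h (by nlinarith [Real.one_le_exp hh0.le]) hh0.le (by
      rw [hX1def, mul_assoc, ← Real.exp_add]; simpa using hX1) 1 0
    have g3 : X1 * Real.exp (-h) = X := by
      rw [hX1def, mul_assoc, ← Real.exp_add]; simp
    rw [g3, ← psiLog1_eq, ← psiLog1_eq, psiA_one] at g2
    rw [← hX1def] at g1
    have g4 : Chebyshev.psi X1 ≤ X + (2 + 3 * C) * (X * h) := by
      have h1 : X1 ≤ X * (1 + 2 * h) := by rw [hX1def]; gcongr
      have h2 : C * (X1 * (h * h)) ≤ C * (X * 3 * h) := by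
        have : X1 ≤ X * 3 := by rw [hX1def]; gcongr
        gcongr
      nlinarith
    have g5 : h * psiA X m a ≤ h * (Chebyshev.psi X1 / (Nat.totient m : ℝ)) + 25 * K * (h * E1) := by
      have h1 : psiLog1 X1 / (Nat.totient m : ℝ) - psiLog1 X / (Nat.totient m : ℝ) ≤
          h * (Chebyshev.psi X1 / (Nat.totient m : ℝ)) := by
        rw [← sub_div, ← mul_div_assoc]
        exact div_le_div_of_nonneg_right g2 hφ0.le
      rw [← hErrE1]
      linarith [f1.2, f0.1]
    have g6 : psiA X m a ≤ Chebyshev.psi X1 / (Nat.totient m : ℝ) + 25 * K * E1 := by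
      have : h * psiA X m a ≤ h * (Chebyshev.psi X1 / (Nat.totient m : ℝ) + 25 * K * E1) := by
        linarith
      exact le_of_mul_le_mul_left this hh0
    have g7 : Chebyshev.psi X1 / (Nat.totient m : ℝ) ≤ X / (Nat.totient m : ℝ) + (2 + 3 * C) * (X * h) := by
      calc Chebyshev.psi X1 / (Nat.totient m : ℝ) ≤ (X + (2 + 3 * C) * (X * h)) / (Nat.totient m : ℝ) :=
            div_le_div_of_nonneg_right g4 hφ0.le
        _ = X / (Nat.totient m : ℝ) + (2 + 3 * C) * (X * h) / (Nat.totient m : ℝ) := add_div _ _ _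
        _ ≤ _ := by
            have : (2 + 3 * C) * (X * h) / (Nat.totient m : ℝ) ≤ (2 + 3 * C) * (X * h) :=
              div_le_self (by positivity) hφ
            linarith
    have g8 : (2 + 3 * C) * (X * h) ≤ (8 * C) * E1 := by
      apply mul_le_mul _ hXhE1 (by positivity) (by positivity)
      linarith
    rw [hK2]
    linarith
  -- lower bound
  have low : X / (Nat.totient m : ℝ) - K2 * E1 ≤ psiA X m a := by
    have g1 := diff_le X h hX1 hh0.le hX2X1 m a
    have g2 := diff_ge X2 h hX2X1 hh0.le 1 0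
    have g3 : X2 * Real.exp h = X := by
      rw [hX2def, mul_assoc, ← Real.exp_add]; simp
    rw [g3, ← psiLog1_eq, ← psiLog1_eq, psiA_one] at g2
    rw [← hX2def] at g1
    have g4 : X - (1 + C) * (X * h) ≤ Chebyshev.psi X2 := by
      have h1 : X * (1 - h) ≤ X2 := by rw [hX2def]; gcongr
      have h2 : C * (X2 * (h * h)) ≤ C * (X * h) := by
        have : X2 ≤ X := by rw [hX2def]; nlinarith
        gcongr
      nlinarith
    have g5 : h * (Chebyshev.psi X2 / (Nat.totient m : ℝ)) - 2 * K * (h * E1) ≤ h * psiA X m a := by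
      have h1 : h * (Chebyshev.psi X2 / (Nat.totient m : ℝ)) ≤
          psiLog1 X / (Nat.totient m : ℝ) - psiLog1 X2 / (Nat.totient m : ℝ) := by
        rw [← sub_div, ← mul_div_assoc]
        exact div_le_div_of_nonneg_right g2 hφ0.le
      rw [← hErrE1]
      linarith [f2.2, f0.1]
    have g6 : Chebyshev.psi X2 / (Nat.totient m : ℝ) - 2 * K * E1 ≤ psiA X m a := by
      have : h * (Chebyshev.psi X2 / (Nat.totient m : ℝ) - 2 * K * E1) ≤ h * psiA X m a := by
        linarith
      exact le_of_mul_le_mul_left this hh0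
    have g7 : X / (Nat.totient m : ℝ) - (1 + C) * (X * h) ≤ Chebyshev.psi X2 / (Nat.totient m : ℝ) := by
      calc X / (Nat.totient m : ℝ) - (1 + C) * (X * h) ≤
          X / (Nat.totient m : ℝ) - (1 + C) * (X * h) / (Nat.totient m : ℝ) := by
            have : (1 + C) * (X * h) / (Nat.totient m : ℝ) ≤ (1 + C) * (X * h) :=
              div_le_self (by positivity) hφ
            linarith
        _ = (X - (1 + C) * (X * h)) / (Nat.totient m : ℝ) := (sub_div _ _ _).symm
        _ ≤ _ := div_le_div_of_nonneg_right g4 hφ0.le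
    have g8 : (1 + C) * (X * h) ≤ (8 * C) * E1 := by
      apply mul_le_mul _ hXhE1 (by positivity) (by positivity)
      linarith
    have g9 : 2 * K * E1 ≤ 25 * K * E1 := by
      have : 0 ≤ K * E1 := by rw [hE1]; positivity
      linarith
    rw [hK2]
    linarith
  have hfin : K2 * E1 ≤ X * Real.exp (-(l / 4)) := by
    rw [hE1]
    have hK20 : 0 < K2 := by rw [hK2]; linarith
    have h1 : K2 ≤ Real.exp (l / 16) := by
      rw [← Real.log_le_iff_le_exp hK20]; linarith
    have h2 : (m : ℝ) ≤ Real.exp (l / 8) := by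
      rw [← Real.log_le_iff_le_exp (by linarith)]; exact hlm
    have h3 : L ^ 3 ≤ Real.exp (l / 16) := by
      calc L ^ 3 ≤ (Real.exp (l / 48)) ^ 3 := by gcongr
        _ = Real.exp (l / 16) := by rw [← Real.exp_nat_mul]; congr 1; ring
    calc K2 * (m * (X * L ^ 3 * h)) ≤ Real.exp (l / 16) * (Real.exp (l / 8) * (X * Real.exp (l / 16) * h)) := by
          gcongr
      _ = X * (Real.exp (l / 16) * (Real.exp (l / 8) * (Real.exp (l / 16) * Real.exp (-(l / 2))))) := by
          rw [hh]; ring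
      _ = X * Real.exp (-(l / 4)) := by
          rw [← Real.exp_add, ← Real.exp_add, ← Real.exp_add]
          congr 2
          ring
  rw [abs_le]
  constructor <;> linarith

end Pool.Agent.H527.AP
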